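import Mathlib

set_option autoImplicit false
open Finset Filter Topology Function

namespace Pool.Agent.Results.MP_e2735d_co.Interval

/-- Number of automorphisms divided by number of strict endomorphisms of the graph with adjacency `E`
(loops allowed). -/
noncomputable def q {V : Type} (E : V → V → Prop) : ℝ :=
  (Nat.card {σ : Equiv.Perm V // ∀ x y, E x y ↔ E (σ x) (σ y)} : ℝ) /
    Nat.card {f : V → V // ∀ x y, E x y → E (f x) (f y)}

/-- The limiting set. -/
def Lim : Set ℝ := {l | ∃ (n : ℕ → ℕ) (E : ∀ k, Fin (n k) → Fin (n k) → Prop),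
  (∀ k x y, E k x y → E k y x) ∧ Tendsto n atTop atTop ∧ Tendsto (fun k => q (E k)) atTop (𝓝 l)}

theorem q_congr {V V' : Type} (e : V ≃ V') (E : V → V → Prop) :
    q (fun x y => E (e.symm x) (e.symm y)) = q E := by
  unfold q
  congr 2
  · refine (Nat.card_congr (e.permCongr.subtypeEquiv fun σ => ⟨fun h x y => ?_, fun h x y => ?_⟩)).symm
    · simpa using h _ _
    · simpa using h (e x) (e y)
  · refine (Nat.card_congr ((e.arrowCongr e).subtypeEquiv fun σ => ⟨fun h x y => ?_, fun h x y => ?_⟩)).symm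
    · simpa using h _ _
    · simpa using h (e x) (e y)

theorem q_mem {V : Type} [Finite V] (E : V → V → Prop) : q E ∈ Set.Icc (0 : ℝ) 1 := by
  refine ⟨by unfold q; positivity, div_le_one_of_le₀ ?_ (by positivity)⟩
  exact_mod_cast Nat.card_le_card_of_injective
    (fun σ : {σ : Equiv.Perm V // ∀ x y, E x y ↔ E (σ x) (σ y)} =>
      (⟨σ.1, fun x y => (σ.2 x y).1⟩ : {f : V → V // ∀ x y, E x y → E (f x) (f y)}))
    fun a b h => Subtype.ext (DFunLike.coe_injective (congrArg Subtype.val h))

theorem inv_hom {V : Type} [Finite V] {E : V → V → Prop} (σ : Equiv.Perm V)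
    (h : ∀ x y, E x y → E (σ x) (σ y)) (x y : V) (e : E (σ x) (σ y)) : E x y := by
  have : ∀ k : ℕ, E ((σ ^ (k + 1)) x) ((σ ^ (k + 1)) y) := by
    intro k
    induction k with
    | zero => simpa using e
    | succ k ih => rw [pow_succ']; exact h _ _ ih
  have := this (orderOf σ - 1)
  rwa [Nat.sub_add_cancel (orderOf_pos σ), pow_orderOf_eq_one] at this

def Un {ι W : Type} (H : ι → W → W → Prop) : Option (ι × W) → Option (ι × W) → Prop
  | none, none => True
  | some a, some b => a.1 = b.1 ∧ H a.1 a.2 b.2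
  | _, _ => False

abbrev Au {W : Type} (H : W → W → Prop) := {σ : Equiv.Perm W // ∀ x y, H x y → H (σ x) (σ y)}

theorem q_Un {ι W : Type} [Fintype ι] [Finite W] (H : ι → W → W → Prop) (u : W)
    (irr : ∀ i x, ¬H i x x) (hu : ∀ i x, x = u ∨ H i u x)
    (core : ∀ i j (f : W → W), (∀ x y, H i x y → H j (f x) (f y)) → i = j ∧ Bijective f) :
    q (Un H) = ∏ i, (Nat.card (Au (H i)) : ℝ) / (Nat.card (Au (H i)) + 1) := by
  classical
  let Φ : (∀ i, Option (Au (H i))) → Option (ι × W) → Option (ι × W) :=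
    fun s z => z.bind fun a => (s a.1).map fun σ => (a.1, σ.1 a.2)
  have h1 : ∀ s x y, Un H x y → Un H (Φ s x) (Φ s y) := by
    rintro s (_ | ⟨i, x⟩) (_ | ⟨j, y⟩) h
    · exact h
    · exact h.elim
    · exact h.elim
    · obtain ⟨rfl, h⟩ : i = j ∧ H i x y := h
      simp only [Φ, Option.bind_some]
      cases s i with
      | none => trivial
      | some σ => exact ⟨rfl, σ.2 _ _ h⟩
  have h2 : ∀ f : Option (ι × W) → Option (ι × W), (∀ x y, Un H x y → Un H (f x) (f y)) →
      ∃ s, Φ s = f := by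
    intro f hf
    have f0 : f none = none := by
      have := hf none none trivial
      cases e : f none with
      | none => rfl
      | some a => rw [e] at this; exact (irr _ _ this.2).elim
    have : ∀ i, ∃ s : Option (Au (H i)), ∀ x, s.map (fun σ => (i, σ.1 x)) = f (some (i, x)) := by
      intro i
      cases e : f (some (i, u)) with
      | none =>
        refine ⟨none, fun x => ?_⟩
        rcases hu i x with rfl | c
        · exact e.symm
        · have := hf (some (i, u)) (some (i, x)) ⟨rfl, c⟩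
          rw [e] at this
          cases e' : f (some (i, x)) with
          | none => rfl
          | some a => rw [e'] at this; exact this.elim
      | some b =>
        have : ∀ x, ∃ y, f (some (i, x)) = some (b.1, y) := by
          intro x
          rcases hu i x with rfl | c
          · exact ⟨_, e⟩
          · have := hf (some (i, u)) (some (i, x)) ⟨rfl, c⟩
            rw [e] at this
            cases e' : f (some (i, x)) with
            | none => rw [e'] at this; exact this.elim
            | some a => rw [e'] at this; exact ⟨a.2, by rw [this.1]⟩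
        choose g hg using this
        have hh : ∀ x y, H i x y → H b.1 (g x) (g y) := fun x y c => by
          have := hf (some (i, x)) (some (i, y)) ⟨rfl, c⟩
          rw [hg, hg] at this; exact this.2
        obtain ⟨c1, c2⟩ := core _ _ g hh
        rw [← c1] at hh hg
        exact ⟨some ⟨Equiv.ofBijective g c2, hh⟩, fun x => (hg x).symm⟩
    choose s hs using this
    refine ⟨s, funext ?_⟩
    rintro (_ | ⟨i, x⟩)
    · exact f0.symm
    · exact hs i x
  have e1 : Nat.card {f : Option (ι × W) → Option (ι × W) // ∀ x y, Un H x y → Un H (f x) (f y)} =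
      ∏ i, (Nat.card (Au (H i)) + 1) := by
    rw [← Nat.card_congr (Equiv.ofBijective (fun s => (⟨Φ s, h1 s⟩ : {f : Option (ι × W) → Option (ι × W) //
      ∀ x y, Un H x y → Un H (f x) (f y)})) ⟨fun s s' e => ?_, fun f => ?_⟩), Nat.card_pi]
    · exact prod_congr rfl fun i _ => Finite.card_option
    · funext i
      have e : ∀ x, (s i).map (fun σ => (i, σ.1 x)) = (s' i).map fun σ => (i, σ.1 x) :=
        fun x => congrFun (congrArg Subtype.val e) (some (i, x))
      cases a : s i <;> cases b : s' i <;> rw [a, b] at e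
      · simpa using e u
      · simpa using e u
      · congr 1; ext x; simpa using e x
    · exact (h2 f.1 f.2).imp fun s h => Subtype.ext h
  let Ψ : (∀ i, Au (H i)) → Equiv.Perm (Option (ι × W)) :=
    fun s => (Equiv.prodCongrRight fun i => (s i).1).optionCongr
  have h3 : ∀ s x, Ψ s x = Φ (fun i => some (s i)) x := by rintro s (_ | ⟨i, x⟩) <;> rfl
  have h4 : ∀ s x y, Un H x y → Un H (Ψ s x) (Ψ s y) := fun s x y h => by rw [h3, h3]; exact h1 (fun i => some (s i)) _ _ h
  have e2 : Nat.card {σ : Equiv.Perm (Option (ι × W)) // ∀ x y, Un H x y ↔ Un H (σ x) (σ y)} =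
      ∏ i, Nat.card (Au (H i)) := by
    rw [← Nat.card_congr (Equiv.ofBijective (fun s => (⟨Ψ s, fun x y => ⟨h4 s x y, inv_hom _ (h4 s) x y⟩⟩ :
      {σ : Equiv.Perm (Option (ι × W)) // ∀ x y, Un H x y ↔ Un H (σ x) (σ y)}))
        ⟨fun s s' e => ?_, fun f => ?_⟩), Nat.card_pi]
    · funext i
      ext x
      have := DFunLike.congr_fun (congrArg Subtype.val e) (some (i, x))
      simpa [Ψ] using this
    · obtain ⟨s, hs⟩ := h2 f.1 fun x y => (f.2 x y).1
      have : ∀ i, ∃ σ, s i = some σ := by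
        intro i
        cases a : s i with
        | some σ => exact ⟨σ, rfl⟩
        | none =>
          have : f.1 (some (i, u)) = f.1 none := by rw [← hs]; simp [Φ, a]
          simpa using this
      choose σ hσ using this
      refine ⟨σ, Subtype.ext (Equiv.ext fun x => ?_)⟩
      rw [← hs, funext hσ]; exact h3 _ _
  rw [q, e1, e2, prod_div_distrib]; push_cast; rfl

def C (N a b : ℕ) : Prop := b = a + 1 ∨ a = b + 1 ∨ (a = 0 ∧ b + 1 = N) ∨ (a + 1 = N ∧ b = 0)

def A (N j a b : ℕ) : Prop := C N a b ∨ (a = 0 ∧ b = j) ∨ (a = j ∧ b = 0)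

theorem lin {s i j : ℕ} (i3 : 3 ≤ i) (j3 : 3 ≤ j) (is : i ≤ s) (js : j ≤ s) (G : ℕ → ℕ)
    (bd : ∀ a < 2 * s + 1, G a < 2 * s + 1) (inj : ∀ a < 2 * s + 1, ∀ b < 2 * s + 1, G a = G b → a = b)
    (sur : ∀ b < 2 * s + 1, ∃ a < 2 * s + 1, G a = b)
    (hom : ∀ a < 2 * s + 1, ∀ b < 2 * s + 1, A (2 * s + 1) j a b → A (2 * s + 1) i (G a) (G b)) :
    i = j ∧ (G 0 = 0 ∨ G 0 = i) ∧ ((∀ a < 2 * s + 1, G a = G 0 + a ∨ G a + (2 * s + 1) = G 0 + a) ∨
      ∀ a < 2 * s + 1, G a + a = G 0 ∨ G a + a = G 0 + (2 * s + 1)) := by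
  obtain ⟨u, u1, u2⟩ := sur 0 (by omega)
  have nb : ∀ z, z = 1 ∨ z = 2 * s → ∃ v < 2 * s + 1, G v = z ∧ C (2 * s + 1) v u := by
    intro z hz
    obtain ⟨v, v1, v2⟩ := sur z (by omega)
    obtain ⟨p, r, p1, r1, ne, p2, r2⟩ : ∃ p r, p < 2 * s + 1 ∧ r < 2 * s + 1 ∧ p ≠ r ∧
        C (2 * s + 1) v p ∧ C (2 * s + 1) v r :=
      ⟨if v = 2 * s then 0 else v + 1, if v = 0 then 2 * s else v - 1, by unfold C; split_ifs <;> omega⟩
    have a := hom v v1 p p1 (Or.inl p2)
    have b := hom v v1 r r1 (Or.inl r2)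
    have c := inj p p1 r r1
    have d := inj p p1 u u1
    have e := inj r r1 u u1
    have := bd p p1
    have := bd r r1
    refine ⟨v, v1, v2, ?_⟩
    have : p = u ∨ r = u := by unfold A C at a b; omega
    rcases this with rfl | rfl <;> assumption
  obtain ⟨v, v1, v2, v3⟩ := nb 1 (Or.inl rfl)
  obtain ⟨w, w1, w2, w3⟩ := nb _ (Or.inr rfl)
  have ch : ∀ z < 2 * s + 1, C (2 * s + 1) z u → G z ≠ i := by
    intro z z1 z2 z3
    have : v ≠ w := by rintro rfl; omega
    have : v ≠ z := by rintro rfl; omega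
    have : w ≠ z := by rintro rfl; omega
    unfold C at *; omega
  have st : ∀ a, a + 1 < 2 * s + 1 → C (2 * s + 1) (G a) (G (a + 1)) := by
    intro a ha
    rcases hom a (by omega) (a + 1) ha (Or.inl (Or.inl rfl)) with c | c | c
    · exact c
    · have := inj a (by omega) u u1 (by omega)
      exact absurd c.2 (ch _ ha (by unfold C; omega))
    · have := inj (a + 1) ha u u1 (by omega)
      exact absurd c.1 (ch _ (by omega) (by unfold C; omega))
  have main : (∀ a < 2 * s + 1, G a = G 0 + a ∨ G a + (2 * s + 1) = G 0 + a) ∨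
      ∀ a < 2 * s + 1, G a + a = G 0 ∨ G a + a = G 0 + (2 * s + 1) := by
    have b0 := bd 0 (by omega)
    have s0 : C (2 * s + 1) (G 0) (G 1) := st 0 (by omega)
    by_cases c : G 1 = G 0 + 1 ∨ G 1 + (2 * s + 1) = G 0 + 1
    · refine Or.inl fun a => ?_
      induction a using Nat.twoStepInduction with
      | zero => omega
      | one => exact fun _ => c
      | more a h1 h2 =>
        intro h
        have := h1 (by omega)
        have := h2 (by omega)
        have := inj a (by omega) (a + 2) h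
        have := bd a (by omega)
        have := bd (a + 1) (by omega)
        have := bd (a + 2) h
        have : C (2 * s + 1) (G (a + 1)) (G (a + 2)) := st (a + 1) h
        unfold C at this; omega
    · refine Or.inr fun a => ?_
      induction a using Nat.twoStepInduction with
      | zero => omega
      | one => unfold C at s0; omega
      | more a h1 h2 =>
        intro h
        have := h1 (by omega)
        have := h2 (by omega)
        have := inj a (by omega) (a + 2) h
        have := bd a (by omega)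
        have := bd (a + 1) (by omega)
        have := bd (a + 2) h
        have : C (2 * s + 1) (G (a + 1)) (G (a + 2)) := st (a + 1) h
        unfold C at this; omega
  have c := hom 0 (by omega) j (by omega) (Or.inr (Or.inl ⟨rfl, rfl⟩))
  have := bd j (by omega)
  have := bd 0 (by omega)
  unfold A C at c
  refine ⟨?_, ?_, main⟩ <;> rcases main with m | m <;> have := m j (by omega) <;> omega

def F (s t j : ℕ) : Fin (2 * s + 1) ⊕ Fin t → Fin (2 * s + 1) ⊕ Fin t → Prop
  | .inl a, .inl b => A (2 * s + 1) j a b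
  | _, _ => False

def H (s t j : ℕ) (x y : Fin (2 * s + 1) ⊕ Fin t) : Prop := x ≠ y ∧ ¬F s t j x y

theorem surj {s t i j : ℕ} (i3 : 3 ≤ i) (is : i ≤ s) (f : Fin (2 * s + 1) ⊕ Fin (t + 1) → _)
    (h : ∀ x y, H s (t + 1) i x y → H s (t + 1) j (f x) (f y)) : Bijective f := by
  classical
  refine (Finite.surjective_iff_bijective).mp fun v => by_contra fun hv => ?_
  obtain ⟨a, b, ab⟩ : ∃ a b, v = .inl a ∨ v = .inr b := by
    rcases v with a | b
    exacts [⟨a, 0, Or.inl rfl⟩, ⟨0, b, Or.inr rfl⟩]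
  let c : Fin (2 * s + 1) ⊕ Fin (t + 1) → ℕ ⊕ Fin (t + 1) := Sum.elim (fun x => if x = a then .inr b else
    .inl (if a.1 < x.1 then (x.1 - a.1 - 1) / 2 else (x.1 + 2 * s - a.1) / 2)) .inr
  have hc : ∀ x y, x ≠ v → y ≠ v → c x = c y → x = y ∨ F s (t + 1) j x y := by
    rintro (x | x) (y | y) hx hy e <;> simp only [c, Sum.elim_inl, Sum.elim_inr, F, A, C] at e ⊢
    · have := x.2; have := y.2; have := a.2
      simp only [Sum.inl.injEq, Fin.ext_iff] at e ⊢
      grind
    · grind
    · grind
    · grind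
  have hk : ∀ x y, c (f x) = c (f y) → x = y ∨ F s (t + 1) i x y := by
    intro x y e
    by_contra n
    have := h x y ⟨fun e => n (Or.inl e), fun e => n (Or.inr e)⟩
    exact (hc _ _ (fun e => hv ⟨_, e⟩) (fun e => hv ⟨_, e⟩) e).elim this.1 this.2
  let K : Finset (ℕ ⊕ Fin (t + 1)) := (range s).disjSum univ
  have cK : ∀ x, c x ∈ K := by
    rintro (x | x) <;> simp only [c, K, Sum.elim_inl, Sum.elim_inr]
    · have := x.2; have := a.2
      split_ifs with p <;> simp <;> rw [Fin.ext_iff] at p <;> omega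
    · simp
  let I : Finset (ℕ ⊕ Fin (t + 1)) := univ.image fun x => c (f (.inr x))
  have cI : #(K \ I) = s := by
    rw [card_sdiff_of_subset (image_subset_iff.mpr fun x _ => cK _), card_image_of_injective _
      fun x y e => by simpa [F] using hk _ _ e]
    simp [K]
  obtain ⟨k, -, hk2⟩ := exists_lt_card_fiber_of_mul_lt_card_of_maps_to (s := univ) (t := K \ I) (n := 2)
    (f := fun x => c (f (.inl x))) (fun x _ => mem_sdiff.mpr ⟨cK _, fun e => by
      obtain ⟨y, -, e⟩ := mem_image.mp e
      simpa [F] using hk _ _ e⟩) (by rw [cI]; simp; omega)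
  obtain ⟨x, hx, y, hy, z, hz, xy, xz, yz⟩ := two_lt_card.mp hk2
  have e1 := hk _ _ ((mem_filter.mp hx).2.trans (mem_filter.mp hy).2.symm)
  have e2 := hk _ _ ((mem_filter.mp hx).2.trans (mem_filter.mp hz).2.symm)
  have e3 := hk _ _ ((mem_filter.mp hy).2.trans (mem_filter.mp hz).2.symm)
  simp only [Sum.inl.injEq, xy, xz, yz, false_or, F, A, C] at e1 e2 e3
  simp only [ne_eq, Fin.ext_iff] at xy xz yz
  omega

theorem str {s t i j : ℕ} (i3 : 3 ≤ i) (j3 : 3 ≤ j) (is : i ≤ s) (js : j ≤ s)
    (f : Equiv.Perm (Fin (2 * s + 1) ⊕ Fin t))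
    (h : ∀ x y, H s t i x y → H s t j (f x) (f y)) : i = j ∧ ∃ (G : ℕ → ℕ) (g : Fin t → Fin t),
      (∀ a, ∃ b, f.symm (.inl a) = .inl b ∧ G a = b) ∧ (∀ a, f.symm (.inr a) = .inr (g a)) ∧
      (G 0 = 0 ∨ G 0 = i) ∧ ((∀ a < 2 * s + 1, G a = G 0 + a ∨ G a + (2 * s + 1) = G 0 + a) ∨
      ∀ a < 2 * s + 1, G a + a = G 0 ∨ G a + a = G 0 + (2 * s + 1)) := by
  have hom : ∀ a b : Fin (2 * s + 1), A (2 * s + 1) j a b → F s t i (f.symm (.inl a)) (f.symm (.inl b)) := by
    intro a b e
    by_contra n
    have := h _ _ ⟨fun c => by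
      have : a = b := by simpa using c
      subst this; unfold A C at e; omega, n⟩
    simp only [Equiv.apply_symm_apply] at this
    exact this.2 e
  have : ∀ a, ∃ b, f.symm (.inl a) = .inl b := by
    intro a
    have := hom a ⟨if a.1 = 0 then 1 else a.1 - 1, by have := a.2; grind⟩ (by unfold A C; grind)
    cases e : f.symm (.inl a) with
    | inl b => exact ⟨b, rfl⟩
    | inr b => rw [e] at this; exact this.elim
  choose γ hγ using this
  have γi : Injective γ := fun a b e => by
    have : f.symm (.inl a) = f.symm (.inl b) := by rw [hγ, hγ, e]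
    simpa using this
  have γs := Finite.surjective_of_injective γi
  have : ∀ a, ∃ b, f.symm (.inr a) = .inr b := by
    intro a
    cases e : f.symm (.inr a) with
    | inr b => exact ⟨b, rfl⟩
    | inl b =>
      obtain ⟨c, rfl⟩ := γs b
      rw [← hγ] at e; simp at e
  choose g hg using this
  let G : ℕ → ℕ := fun a => if h : a < 2 * s + 1 then γ ⟨a, h⟩ else 0
  have hG : ∀ a h, G a = γ ⟨a, h⟩ := fun a h => dif_pos h
  obtain ⟨l1, l2⟩ := lin i3 j3 is js G (fun a h => by rw [hG a h]; exact Fin.is_lt _)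
    (fun a h b h' e => by
      rw [hG a h, hG b h'] at e; simpa using γi (Fin.ext e))
    (fun b h => by
      obtain ⟨a, e⟩ := γs ⟨b, h⟩
      exact ⟨a, a.2, by rw [hG _ a.2, e]⟩)
    (fun a h b h' e => by
      have := hom ⟨a, h⟩ ⟨b, h'⟩ e
      rwa [hγ, hγ, F, ← hG, ← hG] at this)
  exact ⟨l1, G, g, fun a => ⟨_, hγ a, hG _ a.2⟩, hg, l2⟩

theorem au {s t i : ℕ} (i3 : 3 ≤ i) (is : i ≤ s) :
    t ≤ Nat.card (Au (H s t i)) ∧ Nat.card (Au (H s t i)) ≤ 4 * t ^ t := by
  classical
  constructor
  · refine (Nat.self_le_factorial t).trans (le_trans (by simp [Fintype.card_perm])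
      (Nat.card_le_card_of_injective (fun π : Equiv.Perm (Fin t) =>
        (⟨Equiv.sumCongr 1 π, ?_⟩ : Au (H s t i))) fun a b e => ?_))
    · rintro (x | x) (y | y) h <;> simp_all [H, F]
    · ext x
      have := DFunLike.congr_fun (congrArg Subtype.val e) (.inr x)
      simp at this; rw [this]
  · choose G g h1 h2 h3 h4 using fun f : Au (H s t i) => (str i3 i3 is is f.1 f.2).2
    refine le_trans (Nat.card_le_card_of_injective (fun f => (G f 0 = 0, (∀ a < 2 * s + 1,
      G f a = G f 0 + a ∨ G f a + (2 * s + 1) = G f 0 + a), g f)) fun f f' e => ?_) (by simp; omega)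
    simp only [Prod.mk.injEq, eq_iff_iff] at e
    obtain ⟨e1, e2, e3⟩ := e
    refine Subtype.ext (Equiv.symm_bijective.1 (Equiv.ext ?_))
    rintro (a | a)
    · obtain ⟨b, b1, b2⟩ := h1 f a
      obtain ⟨c, c1, c2⟩ := h1 f' a
      rw [b1, c1]; congr 1; ext
      have := b.2; have := c.2; have := h3 f; have := h3 f'
      by_cases d : ∀ a < 2 * s + 1, G f a = G f 0 + a ∨ G f a + (2 * s + 1) = G f 0 + a
      · have := d a a.2; have := e2.mp d a a.2; omega
      · have := (h4 f).resolve_left d a a.2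
        have := (h4 f').resolve_left (mt e2.mpr d) a a.2
        omega
    · rw [h2, h2, e3]

theorem dense (l : ℝ) (l0 : 0 ≤ l) (l1 : l ≤ 1) (k : ℕ) : ∃ (n : ℕ) (E : Fin n → Fin n → Prop),
    (∀ x y, E x y → E y x) ∧ k ≤ n ∧ |q E - l| ≤ 1 / (k + 1) := by
  classical
  have ε0 : (0 : ℝ) < 1 / (k + 1) := by positivity
  obtain ⟨U, hU⟩ : ∃ U : ℝ, U = 4 * (k + 1) ^ (k + 1) := ⟨_, rfl⟩
  have U0 : 0 < U := by rw [hU]; positivity
  obtain ⟨r, hr⟩ := exists_pow_lt_of_lt_one ε0 (show U / (U + 1) < 1 by rw [div_lt_one (by linarith)]; linarith)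
  let a : ℕ → ℝ := fun i => Nat.card (Au (H (r + 3) (k + 1) (i + 3)))
  have ha : ∀ i ≤ r, k + 1 ≤ a i ∧ a i ≤ U := fun i hi => by
    have := au (s := r + 3) (t := k + 1) (i := i + 3) (by omega) (by omega)
    rw [hU]; exact ⟨by simp only [a]; exact_mod_cast this.1, by simp only [a]; exact_mod_cast this.2⟩
  have a0 : ∀ i, 0 ≤ a i := fun i => Nat.cast_nonneg _
  let P : ℕ → ℝ := fun m => ∏ i ∈ range m, a i / (a i + 1)
  have P1 : ∀ m, P m ≤ 1 := fun m => prod_le_one (fun i _ => by have := a0 i; positivity)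
    fun i _ => div_le_one_of_le₀ (by linarith) (by linarith [a0 i])
  have P0 : ∀ m, 0 ≤ P m := fun m => prod_nonneg fun i _ => by have := a0 i; positivity
  have st : ∀ m ≤ r, P m - 1 / (k + 1) ≤ P (m + 1) ∧ P (m + 1) ≤ P m := fun m hm => by
    have e : P (m + 1) = P m - P m * (1 / (a m + 1)) := by
      simp only [P, prod_range_succ]; have := a0 m; field_simp; ring
    have : 1 / (a m + 1) ≤ 1 / (k + 1) := one_div_le_one_div_of_le (by positivity) (by linarith [(ha m hm).1])
    have : 0 ≤ 1 / (a m + 1) := by have := a0 m; positivity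
    constructor <;> nlinarith [P1 m, P0 m]
  have ex : ∃ m, m ≤ r ∧ P (m + 1) ≤ l + 1 / (k + 1) := by
    refine ⟨r, le_rfl, (st r le_rfl).2.trans (le_trans ?_ (hr.le.trans (by linarith)))⟩
    rw [← card_range r, ← prod_const, card_range]
    refine prod_le_prod (fun i _ => by have := a0 i; positivity) fun i hi => ?_
    have := ha i (mem_range.mp hi).le
    rw [div_le_div_iff₀ (by linarith [a0 i]) (by linarith)]; linarith
  obtain ⟨m, ⟨m1, m2⟩, m3⟩ : ∃ m, (m ≤ r ∧ P (m + 1) ≤ l + 1 / (k + 1)) ∧ l ≤ P m := by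
    refine ⟨Nat.find ex, Nat.find_spec ex, ?_⟩
    cases e : Nat.find ex with
    | zero => simpa [P] using l1
    | succ m =>
      have := Nat.find_min ex (show m < Nat.find ex by omega)
      have := (Nat.find_spec ex).1
      have : ¬P (m + 1) ≤ l + 1 / (k + 1) := fun c => by grind
      linarith
  let V := Option (Fin (m + 1) × (Fin (2 * (r + 3) + 1) ⊕ Fin (k + 1)))
  let Hs : Fin (m + 1) → _ := fun i => H (r + 3) (k + 1) (i + 3)
  refine ⟨Fintype.card V, fun x y => Un Hs ((Fintype.equivFin V).symm x) ((Fintype.equivFin V).symm y),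
    fun x y => ?_, by simp [V]; nlinarith, ?_⟩
  · beta_reduce
    generalize (Fintype.equivFin V).symm x = x, (Fintype.equivFin V).symm y = y
    rcases x with _ | ⟨i, x⟩ <;> rcases y with _ | ⟨j, y⟩ <;> intro h
    · trivial
    · exact h
    · exact h
    · obtain ⟨rfl, h1, h2⟩ : i = j ∧ Hs i x y := h
      refine ⟨rfl, h1.symm, fun c => h2 ?_⟩
      rcases x with x | x <;> rcases y with y | y <;> simp only [F, A, C] at c ⊢
      omega
  · rw [q_congr, q_Un Hs (.inr 0) (fun i x h => h.1 rfl) (fun i x => ?_) fun i j f h => ?_]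
    · rw [Fin.prod_univ_eq_prod_range (fun i => a i / (a i + 1)), abs_le]
      have := (st m m1).1
      constructor <;> linarith
    · by_cases c : x = .inr 0
      · exact Or.inl c
      · exact Or.inr ⟨Ne.symm c, by simp [F]⟩
    · have := i.2; have := j.2
      have b := surj (by omega) (by omega) f h
      have := (str (by omega) (by omega) (by omega) (by omega) (Equiv.ofBijective f b) h).1
      exact ⟨Fin.ext (by omega), b⟩

theorem result : Lim = Set.Icc 0 1 := by
  ext l
  constructor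
  · rintro ⟨n, E, -, -, h⟩
    exact isClosed_Icc.mem_of_tendsto h (Eventually.of_forall fun k => q_mem _)
  · rintro ⟨l0, l1⟩
    choose n E h1 h2 h3 using dense l l0 l1
    refine ⟨n, E, h1, tendsto_atTop_mono h2 tendsto_id, ?_⟩
    rw [tendsto_iff_norm_sub_tendsto_zero]
    exact squeeze_zero (fun _ => norm_nonneg _) h3 tendsto_one_div_add_atTop_nhds_zero_nat

end Pool.Agent.Results.MP_e2735d_co.Interval
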